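import Mathlib
import Pool.Agent.MP_116850_co.Final

set_option autoImplicit false

namespace Pool.Agent.Results.MP_116850_co.GoodPrimes

open Finset

/-- the norm of a set of residues modulo `p`: the sum of the absolute values of the
representatives in `(-p/2, p/2]` -/
def nrm {p : ℕ} (A : Finset (ZMod p)) : ℤ := ∑ x ∈ A, |x.valMinAbs|

/-- the dilate `b · A` -/
def dilate {p : ℕ} (b : ℕ) (A : Finset (ZMod p)) : Finset (ZMod p) :=
  A.image (fun a => (b : ZMod p) * a)

/-- the set of all sums of distinct elements of `A` (the empty sum is allowed) -/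
def sums {p : ℕ} (A : Finset (ZMod p)) : Set (ZMod p) := {s | ∃ B ⊆ A, ∑ b ∈ B, b = s}

/-- `p` is good: every non-spanning `A` with `⌊2 √(p - 2)⌋` elements has a dilate by some
`b ∈ {1, …, p - 1}` of norm at most `p - 2` -/
def IsGood (p : ℕ) : Prop :=
  ∀ A : Finset (ZMod p), (A.card : ℤ) = ⌊2 * Real.sqrt ((p : ℝ) - 2)⌋ → sums A ≠ Set.univ →
    ∃ b : ℕ, 1 ≤ b ∧ b ≤ p - 1 ∧ nrm (dilate b A) ≤ (p : ℤ) - 2

/-- An odd prime is good if and only if it is not `17`. -/
theorem result (p : ℕ) (hp : p.Prime) (hodd : Odd p) : IsGood p ↔ p ≠ 17 := by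
  haveI : Fact p.Prime := ⟨hp⟩
  have h2 : p ≠ 2 := by
    rintro rfl
    exact absurd hodd (by decide)
  rw [← Pool.Agent.MP_116850_co.good_iff p hp h2]
  have hdil : ∀ (b : ℕ) (A : Finset (ZMod p)), (b : ZMod p) ≠ 0 →
      nrm (dilate b A) = ∑ a ∈ A, |((b : ZMod p) * a).valMinAbs| := by
    intro b A hb
    unfold nrm dilate
    rw [sum_image]
    intro x _ y _ h
    exact mul_left_cancel₀ hb h
  have hsums : ∀ A : Finset (ZMod p), sums A ≠ Set.univ ↔
      ∃ c : ZMod p, ∀ B ⊆ A, ∑ x ∈ B, x ≠ c := by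
    intro A
    rw [Set.ne_univ_iff_exists_notMem]
    constructor
    · rintro ⟨c, hc⟩
      exact ⟨c, fun B hB h => hc ⟨B, hB, h⟩⟩
    · rintro ⟨c, hc⟩
      exact ⟨c, fun ⟨B, hB, h⟩ => hc B hB h⟩
  constructor
  · intro h A hA hc
    obtain ⟨b, hb1, hb2, hn⟩ := h A hA ((hsums A).mpr hc)
    have hb : (b : ZMod p) ≠ 0 := by
      intro h0
      have := (ZMod.natCast_eq_zero_iff b p).mp h0
      have := Nat.le_of_dvd (by omega) this
      have := hp.pos
      omega
    exact ⟨b, hb, by rw [← hdil b A hb]; exact hn⟩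
  · intro h A hA hs
    obtain ⟨u, hu, hn⟩ := h A hA ((hsums A).mp hs)
    have hval : ((u.val : ℕ) : ZMod p) = u := ZMod.natCast_zmod_val u
    refine ⟨u.val, ?_, ?_, ?_⟩
    · have : u.val ≠ 0 := fun h0 => hu ((ZMod.val_eq_zero u).mp h0)
      omega
    · have := ZMod.val_lt u
      omega
    · rw [hdil u.val A (by rw [hval]; exact hu), hval]
      exact hn

end Pool.Agent.Results.MP_116850_co.GoodPrimes
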